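import Pool.Agent.Helper826.Barely.Perm

/-!
MP_c971d3_al: in a barely transitive `p`-group of finitary permutations the proportion of a finite
block covered by one cycle of an element tends to zero.
-/

set_option autoImplicit false

namespace Pool.Agent.Results.MP_c971d3_al.LongCycles

/-- Let `p` be a prime and let `G` be a `p`-group acting faithfully and transitively on an infinite
set `Ω`, each element moving only finitely many points, such that every proper subgroup of `G` has
only finite orbits. Then for every `r` there is a finite set `F` such that for every finite block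
`B` containing `F`, every `x` in `G` and every point `a`, the orbit of `a` under the powers of `x`
contains fewer than `|B| / r` points of `B`. -/
theorem result (p : ℕ) (hp : p.Prime) (G Ω : Type*) [Group G] [MulAction G Ω]
    [FaithfulSMul G Ω] [Infinite Ω]
    (hG : ∀ g : G, ∃ n : ℕ, g ^ p ^ n = 1)
    (hfin : ∀ g : G, {a : Ω | g • a ≠ a}.Finite)
    (htr : ∀ a b : Ω, ∃ g : G, g • a = b)
    (hbt : ∀ H : Subgroup G, H ≠ ⊤ → ∀ a : Ω, (MulAction.orbit H a).Finite)
    (r : ℕ) :
    ∃ F : Set Ω, F.Finite ∧ ∀ B : Set Ω, F ⊆ B → B.Finite →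
      (∀ g : G, (fun b => g • b) '' B = B ∨ Disjoint ((fun b => g • b) '' B) B) →
      ∀ x : G, ∀ a : Ω, r * (B ∩ {b | ∃ n : ℤ, x ^ n • a = b}).ncard < B.ncard := by
  by_contra hcon
  push Not at hcon
  obtain ⟨H, hH, a, ha⟩ :=
    Pool.Agent.Helper826.Barely.action_main p hp G Ω hG hfin htr r (by
      intro F hF
      obtain ⟨B, hFB, hBf, hBb, x, a, hxa⟩ := hcon F hF
      exact ⟨B, hFB, hBf, hBb, x, a, hxa⟩)
  exact ha (hbt H hH a)

end Pool.Agent.Results.MP_c971d3_al.LongCycles
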